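import Pool.Agent.Lib_helper68.MC.Defs

/-! Project MC (MP_b08f5f_an, microcanonical), block TL: the one-particle averages change slowly. -/

set_option autoImplicit false

namespace Pool.Agent.Lib_helper68.MC

open MeasureTheory Filter Topology Set
open scoped ComplexConjugate ENNReal NNReal
open Pool.Agent.Lib_helper25.PV (Conf vel Motion centre inertia NC VFlow)
open Pool.Agent.Lib_helper12.HE (ham rad nrm Gam sig shell turn one LimAvg)

noncomputable section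

theorem TL_nonneg {Φ : ℂ → ℝ} {L : ℝ}
    (hL : ∀ x y, ‖fderiv ℝ Φ x - fderiv ℝ Φ y‖ ≤ L * ‖x - y‖) : 0 ≤ L := by
  have h := (norm_nonneg _).trans (hL 1 0)
  simpa using h

/-- the kernel -/
def TL_K (x : ℂ) : ℂ := -(Complex.I / (2 * Real.pi)) * (1 / conj x)

theorem TL_Kneg (x : ℂ) : TL_K (-x) = -TL_K x := by
  unfold TL_K
  rw [map_neg, div_neg, mul_neg]

theorem TL_Knorm (x : ℂ) : ‖TL_K x‖ = (2 * Real.pi)⁻¹ * ‖x‖⁻¹ := by
  unfold TL_K
  rw [norm_mul, norm_neg, norm_div, norm_div, Complex.norm_I, norm_mul, Complex.norm_real,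
    RCLike.norm_conj, Real.norm_eq_abs, abs_of_pos Real.pi_pos]
  simp

theorem TL_vel {N : ℕ} (z : Conf N) (i : Fin N) :
    vel z i = ∑ j ∈ Finset.univ.erase i, TL_K (z i - z j) := by
  unfold vel TL_K
  rw [Finset.mul_sum]

/-- symmetrisation of the double sum -/
theorem TL_sym {N : ℕ} (g : Fin N → ℂ →L[ℝ] ℝ) (k : Fin N → Fin N → ℂ)
    (hk : ∀ i j, k i j = -k j i) :
    2 * ∑ i, ∑ j ∈ Finset.univ.erase i, g i (k i j) =
      ∑ i, ∑ j ∈ Finset.univ.erase i, (g i - g j) (k i j) := by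
  have h1 : ∑ i, ∑ j ∈ Finset.univ.erase i, g j (k i j) =
      -∑ i, ∑ j ∈ Finset.univ.erase i, g i (k i j) := by
    rw [Finset.sum_comm' (s := Finset.univ) (t := fun i => Finset.univ.erase i)
      (t' := Finset.univ) (s' := fun j => Finset.univ.erase j) (by
        intro x y
        simp only [Finset.mem_univ, true_and, Finset.mem_erase, and_true, ne_eq]
        exact not_congr eq_comm)]
    rw [← Finset.sum_neg_distrib]
    refine Finset.sum_congr rfl fun i _ => ?_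
    rw [← Finset.sum_neg_distrib]
    refine Finset.sum_congr rfl fun j _ => ?_
    rw [hk j i, map_neg]
  have h2 : ∑ i, ∑ j ∈ Finset.univ.erase i, (g i - g j) (k i j) =
      ∑ i, ∑ j ∈ Finset.univ.erase i, g i (k i j) -
        ∑ i, ∑ j ∈ Finset.univ.erase i, g j (k i j) := by
    rw [← Finset.sum_sub_distrib]
    refine Finset.sum_congr rfl fun i _ => ?_
    rw [← Finset.sum_sub_distrib]
    rfl
  rw [h2, h1]
  ring

theorem TL_bound {N : ℕ} (hN : 1 ≤ N) {Φ : ℂ → ℝ} {L : ℝ}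
    (hL : ∀ x y, ‖fderiv ℝ Φ x - fderiv ℝ Φ y‖ ≤ L * ‖x - y‖) {z : Conf N}
    (hz : Function.Injective z) :
    |(∑ i, fderiv ℝ Φ (z i) (vel z i)) / N| ≤ N * L / (4 * Real.pi) := by
  have hN0 : (0 : ℝ) < N := by exact_mod_cast hN
  have hL0 := TL_nonneg hL
  have hpi := Real.pi_pos
  have h1 : ∑ i, fderiv ℝ Φ (z i) (vel z i) =
      ∑ i, ∑ j ∈ Finset.univ.erase i, fderiv ℝ Φ (z i) (TL_K (z i - z j)) := by
    refine Finset.sum_congr rfl fun i _ => ?_
    rw [TL_vel, map_sum]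
  have h2 := TL_sym (fun i => fderiv ℝ Φ (z i)) (fun i j => TL_K (z i - z j)) (by
    intro i j
    rw [← TL_Kneg, neg_sub])
  have h3 : |∑ i, ∑ j ∈ Finset.univ.erase i,
      (fderiv ℝ Φ (z i) - fderiv ℝ Φ (z j)) (TL_K (z i - z j))| ≤
      ∑ i : Fin N, ∑ j ∈ Finset.univ.erase i, L * (2 * Real.pi)⁻¹ := by
    refine (Finset.abs_sum_le_sum_abs _ _).trans (Finset.sum_le_sum fun i _ => ?_)
    refine (Finset.abs_sum_le_sum_abs _ _).trans (Finset.sum_le_sum fun j hj => ?_)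
    have hij : z i - z j ≠ 0 := sub_ne_zero.2 fun h => (Finset.ne_of_mem_erase hj) (hz h).symm
    have hn : 0 < ‖z i - z j‖ := norm_pos_iff.2 hij
    calc |(fderiv ℝ Φ (z i) - fderiv ℝ Φ (z j)) (TL_K (z i - z j))|
        ≤ ‖fderiv ℝ Φ (z i) - fderiv ℝ Φ (z j)‖ * ‖TL_K (z i - z j)‖ := by
          rw [← Real.norm_eq_abs]
          exact ContinuousLinearMap.le_opNorm _ _
      _ ≤ (L * ‖z i - z j‖) * ((2 * Real.pi)⁻¹ * ‖z i - z j‖⁻¹) := by
          rw [TL_Knorm]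
          exact mul_le_mul_of_nonneg_right (hL _ _) (by positivity)
      _ = L * (2 * Real.pi)⁻¹ := by
          field_simp
  have h4 : ∑ i : Fin N, ∑ j ∈ Finset.univ.erase i, L * (2 * Real.pi)⁻¹ =
      N * (((N - 1 : ℕ) : ℝ) * (L * (2 * Real.pi)⁻¹)) := by
    simp only [Finset.sum_const, Finset.card_erase_of_mem (Finset.mem_univ _), Finset.card_univ,
      Fintype.card_fin, nsmul_eq_mul]
  have h5 : (((N - 1 : ℕ) : ℝ)) ≤ N := by exact_mod_cast Nat.sub_le N 1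
  rw [h1, abs_div, abs_of_pos hN0, div_le_iff₀ hN0]
  have h6 : |∑ i, ∑ j ∈ Finset.univ.erase i, fderiv ℝ Φ (z i) (TL_K (z i - z j))| =
      2⁻¹ * |∑ i, ∑ j ∈ Finset.univ.erase i,
        (fderiv ℝ Φ (z i) - fderiv ℝ Φ (z j)) (TL_K (z i - z j))| := by
    rw [← h2, abs_mul, abs_two]
    ring
  rw [h6]
  have h7 : (N : ℝ) * (((N - 1 : ℕ) : ℝ) * (L * (2 * Real.pi)⁻¹)) ≤
      N * (N * (L * (2 * Real.pi)⁻¹)) := by
    apply mul_le_mul_of_nonneg_left _ hN0.le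
    exact mul_le_mul_of_nonneg_right h5 (by positivity)
  have h8 : (N : ℝ) * L / (4 * Real.pi) * N = 2⁻¹ * (N * (N * (L * (2 * Real.pi)⁻¹))) := by
    field_simp
    ring
  rw [h8]
  linarith [h3, h4]

theorem TL_main {N : ℕ} (hN : 1 ≤ N) {w : ℝ → Conf N} (hw : Motion w) {Φ : ℂ → ℝ} {L : ℝ}
    (hΦ : Differentiable ℝ Φ) (hL : ∀ x y, ‖fderiv ℝ Φ x - fderiv ℝ Φ y‖ ≤ L * ‖x - y‖)
    (s t : ℝ) : |one N Φ (w t) - one N Φ (w s)| ≤ N * L / (4 * Real.pi) * |t - s| := by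
  have hd : ∀ u : ℝ, HasDerivAt (fun u => one N Φ (w u))
      ((∑ i, fderiv ℝ Φ (w u i) (vel (w u) i)) / N) u := by
    intro u
    have h1 : ∀ i ∈ (Finset.univ : Finset (Fin N)), HasDerivAt (fun u => Φ (w u i))
        (fderiv ℝ Φ (w u i) (vel (w u) i)) u := by
      intro i _
      exact (hΦ (w u i)).hasFDerivAt.comp_hasDerivAt u ((hw u).2 i)
    have h2 := HasDerivAt.fun_sum h1
    exact h2.div_const (N : ℝ)
  have h := Convex.norm_image_sub_le_of_norm_hasDerivWithin_le (s := Set.univ)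
    (f := fun u => one N Φ (w u)) (C := N * L / (4 * Real.pi))
    (fun u _ => (hd u).hasDerivWithinAt) (fun u _ => by
      rw [Real.norm_eq_abs]
      exact TL_bound hN hL (hw u).1) convex_univ (Set.mem_univ s) (Set.mem_univ t)
  exact h

/-- the same for `Φ` composed with a rotation -/
theorem TL_rot {Φ : ℂ → ℝ} {L : ℝ} (hΦ : Differentiable ℝ Φ)
    (hL : ∀ x y, ‖fderiv ℝ Φ x - fderiv ℝ Φ y‖ ≤ L * ‖x - y‖) (θ : ℝ) :
    Differentiable ℝ (fun x => Φ (Complex.exp (θ * Complex.I) * x)) ∧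
    ∀ x y, ‖fderiv ℝ (fun x => Φ (Complex.exp (θ * Complex.I) * x)) x -
      fderiv ℝ (fun x => Φ (Complex.exp (θ * Complex.I) * x)) y‖ ≤ L * ‖x - y‖ := by
  set a : ℂ := Complex.exp (θ * Complex.I) with ha
  have hn : ‖a‖ = 1 := Complex.norm_exp_ofReal_mul_I θ
  have hm : ∀ x : ℂ, HasFDerivAt (fun x => a * x)
      (ContinuousLinearMap.mul ℝ ℂ a) x := fun x => (ContinuousLinearMap.mul ℝ ℂ a).hasFDerivAt
  have hd : ∀ x : ℂ, HasFDerivAt (fun x => Φ (a * x))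
      ((fderiv ℝ Φ (a * x)).comp (ContinuousLinearMap.mul ℝ ℂ a)) x := fun x =>
    (hΦ (a * x)).hasFDerivAt.comp x (hm x)
  refine ⟨fun x => (hd x).differentiableAt, fun x y => ?_⟩
  rw [(hd x).fderiv, (hd y).fderiv, ← ContinuousLinearMap.sub_comp]
  calc ‖(fderiv ℝ Φ (a * x) - fderiv ℝ Φ (a * y)).comp (ContinuousLinearMap.mul ℝ ℂ a)‖
      ≤ ‖fderiv ℝ Φ (a * x) - fderiv ℝ Φ (a * y)‖ * ‖ContinuousLinearMap.mul ℝ ℂ a‖ :=
        ContinuousLinearMap.opNorm_comp_le _ _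
    _ ≤ (L * ‖a * x - a * y‖) * 1 := by
        apply mul_le_mul (hL _ _) _ (norm_nonneg _)
        · exact (norm_nonneg _).trans (hL _ _)
        · refine ContinuousLinearMap.opNorm_le_bound _ zero_le_one fun v => ?_
          rw [ContinuousLinearMap.mul_apply', norm_mul, hn]
    _ = L * ‖x - y‖ := by
        rw [← mul_sub, norm_mul, hn]
        ring

end

end Pool.Agent.Lib_helper68.MC
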